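import Pool.Agent.Q271.LSS.Lift

/-!
# Hypergraph Lovász–Saks–Schrijver ideals are prime for `d ≥ pmd(H) + 1`
-/

set_option autoImplicit false

open MvPolynomial Pool.Agent.Q271.LSS

namespace Pool.Agent.Results.MP_c79496_ag.PrimeAbovePmd

universe u v

variable (k : Type v) [Field k] {V : Type u} [DecidableEq V]

/-- `f_A^{(d)} = ∑_j ∏_{i ∈ A} y_{i,j}`. -/
noncomputable def edgePoly (d : ℕ) (A : Finset V) : MvPolynomial (V × Fin d) k :=
  ∑ j : Fin d, ∏ i ∈ A, X (i, j)

/-- The ideal `L_H(d)` generated by the `f_A^{(d)}`, `A ∈ E`. -/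
noncomputable def lss (d : ℕ) (E : Set (Finset V)) : Ideal (MvPolynomial (V × Fin d) k) :=
  Ideal.span (edgePoly k d '' E)

omit [DecidableEq V] in
/-- `E` is a clutter of nonempty sets. -/
def IsClutter (E : Set (Finset V)) : Prop :=
  (∀ A ∈ E, A.Nonempty) ∧ ∀ A ∈ E, ∀ B ∈ E, A ⊆ B → A = B

omit [DecidableEq V] in
/-- `M` is a positive matching of the hypergraph with the set of edges `E`. -/
def IsPositiveMatching (E M : Set (Finset V)) : Prop :=
  M ⊆ E ∧ (∀ A ∈ M, ∀ B ∈ M, A ≠ B → Disjoint A B) ∧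
    ∃ w : V → ℝ, (∀ A ∈ M, 0 < ∑ i ∈ A, w i) ∧ ∀ A ∈ E, A ∉ M → ∑ i ∈ A, w i < 0

omit [DecidableEq V] in
/-- The hypergraph with the set of edges `E` has a positive matching decomposition with `p` parts:
a first positive matching `M` and a decomposition of `E \ M` with one part less. -/
def HasPMD : ℕ → Set (Finset V) → Prop
  | 0, E => E = ∅
  | p + 1, E => ∃ M, IsPositiveMatching E M ∧ HasPMD p (E \ M)

omit [DecidableEq V] in
/-- The least number of parts of a positive matching decomposition. -/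
noncomputable def pmd (E : Set (Finset V)) : ℕ := sInf {p | HasPMD p E}

variable {k} {d : ℕ}

lemma lss_le_ker {R : Type*} [CommRing R] {E : Set (Finset V)}
    (φ : MvPolynomial (V × Fin d) k →+* R) (h : ∀ A ∈ E, φ (edgePoly k d A) = 0) :
    lss k d E ≤ RingHom.ker φ := by
  unfold lss
  rw [Ideal.span_le]
  rintro _ ⟨A, hA, rfl⟩
  exact h A hA

lemma edgePoly_notMem_lss {E : Set (Finset V)} (hE : IsClutter E) (hd : 1 ≤ d) {A : Finset V}
    (hA : A ∈ E) {W : Set (Finset V)} (hW : W ⊆ E) (hAW : A ∉ W) :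
    edgePoly k d A ∉ lss k d W := by
  classical
  set j₀ : Fin d := ⟨0, hd⟩
  set p : V × Fin d → k := fun x => if x.2 = j₀ ∧ x.1 ∈ A then 1 else 0 with hp
  have hev : ∀ B : Finset V, B.Nonempty → eval p (edgePoly k d B) =
      if B ⊆ A then 1 else 0 := by
    intro B hB
    unfold edgePoly
    rw [map_sum, Finset.sum_eq_single j₀]
    · rw [map_prod]
      split_ifs with hBA
      · refine Finset.prod_eq_one fun i hi => ?_
        rw [eval_X, hp]
        simp [hBA hi]
      · obtain ⟨i, hi, hi'⟩ := Finset.not_subset.1 hBA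
        refine Finset.prod_eq_zero hi ?_
        rw [eval_X, hp]
        simp [hi']
    · intro j _ hj
      obtain ⟨b, hb⟩ := hB
      rw [map_prod]
      refine Finset.prod_eq_zero hb ?_
      rw [eval_X, hp]
      simp [hj]
    · intro h
      exact absurd (Finset.mem_univ _) h
  have hker : lss k d W ≤ RingHom.ker (eval p) := by
    apply lss_le_ker
    intro B hB
    rw [hev B (hE.1 B (hW hB)), if_neg]
    intro hBA
    exact hAW ((hE.2 B (hW hB) A hA hBA) ▸ hB)
  intro hmem
  have h1 := hker hmem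
  rw [RingHom.mem_ker, hev A (hE.1 A hA), if_pos (Finset.Subset.refl A)] at h1
  exact one_ne_zero h1

section weights

variable [Finite V]

/-- integer weights which vanish on the matching and are negative on the other edges -/
lemma int_weights {E M : Set (Finset V)} (hne : ∀ A ∈ E, A.Nonempty)
    (hM : IsPositiveMatching E M) : ∃ u : V → ℤ, (∀ A ∈ M, ∑ i ∈ A, u i = 0) ∧
      ∀ A ∈ E, A ∉ M → ∑ i ∈ A, u i < 0 := by
  classical
  obtain ⟨hME, hdisj, w, hw1, hw2⟩ := hM
  rcases isEmpty_or_nonempty V with hV | hV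
  · refine ⟨fun _ => 0, fun A hA => ?_, fun A hA _ => ?_⟩
    · obtain ⟨a, -⟩ := hne A (hME hA)
      exact hV.elim a
    · obtain ⟨a, -⟩ := hne A hA
      exact hV.elim a
  have hfin : M.Finite := Set.toFinite M
  have hN : ∀ᶠ N : ℕ in Filter.atTop, (∀ A ∈ M, (A.card : ℝ) < N * ∑ i ∈ A, w i) ∧ 1 ≤ N := by
    refine Filter.Eventually.and ?_ (Filter.eventually_ge_atTop 1)
    rw [Filter.eventually_all_finite hfin]
    intro A hA
    exact (tendsto_natCast_atTop_atTop.atTop_mul_const (hw1 A hA)).eventually_gt_atTop _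
  obtain ⟨N, hN1, hN2⟩ := hN.exists
  set w' : V → ℤ := fun v => ⌊(N : ℝ) * w v⌋ with hw'
  have hpos : ∀ A ∈ M, 0 < ∑ i ∈ A, w' i := by
    intro A hA
    have h1 : (0 : ℝ) < ((∑ i ∈ A, w' i : ℤ) : ℝ) := by
      rw [Int.cast_sum]
      have h2 : ∑ i ∈ A, ((N : ℝ) * w i - 1) ≤ ∑ i ∈ A, ((w' i : ℤ) : ℝ) :=
        Finset.sum_le_sum fun i _ => (Int.sub_one_lt_floor _).le
      rw [Finset.sum_sub_distrib, ← Finset.mul_sum, Finset.sum_const, nsmul_eq_mul, mul_one] at h2
      linarith [hN1 A hA]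
    exact_mod_cast h1
  have hneg : ∀ A ∈ E, A ∉ M → ∑ i ∈ A, w' i < 0 := by
    intro A hA hAM
    have h1 : ((∑ i ∈ A, w' i : ℤ) : ℝ) < 0 := by
      rw [Int.cast_sum]
      have h2 : ∑ i ∈ A, ((w' i : ℤ) : ℝ) ≤ ∑ i ∈ A, (N : ℝ) * w i :=
        Finset.sum_le_sum fun i _ => Int.floor_le _
      rw [← Finset.mul_sum] at h2
      have h3 : (0 : ℝ) < N := by exact_mod_cast hN2
      have h4 := mul_neg_of_pos_of_neg h3 (hw2 A hA hAM)
      linarith
    exact_mod_cast h1
  choose! c hcA using fun A (hA : A ∈ M) => hne A (hME hA)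
  set Mf := hfin.toFinset with hMf
  have hMf' : ∀ A, A ∈ Mf ↔ A ∈ M := fun A => by rw [hMf]; exact Set.Finite.mem_toFinset _
  refine ⟨fun v => w' v - ∑ A ∈ Mf, if c A = v then ∑ i ∈ A, w' i else 0, ?_, ?_⟩
  all_goals
    have hsum : ∀ B : Finset V, ∑ v ∈ B, (w' v - ∑ A ∈ Mf, if c A = v then ∑ i ∈ A, w' i else 0) =
        ∑ i ∈ B, w' i - ∑ A ∈ Mf, if c A ∈ B then ∑ i ∈ A, w' i else 0 := by
      intro B
      rw [Finset.sum_sub_distrib, Finset.sum_comm]
      congr 1
      refine Finset.sum_congr rfl fun A _ => ?_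
      rw [Finset.sum_ite_eq]
  · intro B hB
    simp only
    rw [hsum, Finset.sum_eq_single B, if_pos (hcA B hB), sub_self]
    · intro A hA hAB
      rw [if_neg]
      intro h
      exact (Finset.disjoint_left.1 (hdisj A ((hMf' A).1 hA) B hB hAB)
        (hcA A ((hMf' A).1 hA))) h
    · intro h
      exact absurd ((hMf' B).2 hB) h
  · intro B hB hBM
    simp only
    rw [hsum]
    have h1 : 0 ≤ ∑ A ∈ Mf, if c A ∈ B then ∑ i ∈ A, w' i else 0 := by
      refine Finset.sum_nonneg fun A hA => ?_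
      split_ifs
      · exact (hpos A ((hMf' A).1 hA)).le
      · exact le_rfl
    linarith [hneg B hB hBM]

end weights

section step

variable (k) in
/-- the deformed polynomials -/
noncomputable def F (q : ℕ) (u : V → ℤ) (A : Finset V) :
    MvPolynomial (Option (V × Fin (q + 1))) k :=
  X none ^ (-∑ i ∈ A, u i).toNat * ∏ i ∈ A, X (some (i, 0)) +
    ∑ j : Fin q, ∏ i ∈ A, X (some (i, j.succ))

variable {q : ℕ} {u : V → ℤ}

omit [DecidableEq V] in
variable (k V q) in
noncomputable def iota : MvPolynomial (V × Fin q) k →+* MvPolynomial (Option (V × Fin (q + 1))) k :=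
  eval₂Hom C (fun x => X (some (x.1, x.2.succ)))

omit [DecidableEq V] in
lemma iota_X (x : V × Fin q) : iota k V q (X x) = X (some (x.1, x.2.succ)) := by
  rw [iota, coe_eval₂Hom, eval₂_X]

omit [DecidableEq V] in
lemma iota_C (a : k) : iota k V q (C a) = C a := by
  rw [iota, coe_eval₂Hom, eval₂_C]

lemma F_eq (A : Finset V) : F k q u A = X none ^ (-∑ i ∈ A, u i).toNat * ∏ i ∈ A, X (some (i, 0)) +
    iota k V q (edgePoly k q A) := by
  unfold F edgePoly
  rw [map_sum]
  congr 1
  refine Finset.sum_congr rfl fun j _ => ?_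
  rw [map_prod]
  exact Finset.prod_congr rfl fun i _ => (iota_X (i, j)).symm

/-- the special fibre is prime -/
lemma special_prime [Finite V] {E M : Set (Finset V)} (hq : 1 ≤ q) (hE : IsClutter E)
    (hME : M ⊆ E) (hdisj : ∀ A ∈ M, ∀ B ∈ M, A ≠ B → Disjoint A B)
    (hu0 : ∀ A ∈ M, ∑ i ∈ A, u i = 0) (hu1 : ∀ A ∈ E, A ∉ M → ∑ i ∈ A, u i < 0)
    (hP : ∀ E' ⊆ E \ M, (lss k q E').IsPrime) {W : Set (Finset V)} (hW : W ⊆ E) :
    (Ideal.span (F k q u '' W) ⊔ Ideal.span {X none}).IsPrime := by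
  classical
  have hN : W \ M ⊆ E \ M := Set.sdiff_subset_sdiff_left hW
  set P := lss k q (W \ M) with hPdef
  have hPp : P.IsPrime := hP _ hN
  have hdom : IsDomain (MvPolynomial (V × Fin q) k ⧸ P) := (Ideal.Quotient.isDomain_iff_prime _).2 hPp
  set mk := Ideal.Quotient.mk P with hmk
  set Mf := (Set.toFinite (W ∩ M)).toFinset with hMf
  have hMf' : ∀ A, A ∈ Mf ↔ A ∈ W ∧ A ∈ M := fun A => by rw [hMf, Set.Finite.mem_toFinset]; rfl
  have hJ := disjoint_prime (V := V) Mf (MvPolynomial (V × Fin q) k ⧸ P)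
    (fun A => mk (edgePoly k q A)) (fun A hA => hE.1 A (hME ((hMf' A).1 hA).2))
    (fun A hA B hB => hdisj A ((hMf' A).1 hA).2 B ((hMf' B).1 hB).2)
    (by
      intro A hA h0
      rw [hmk, Ideal.Quotient.eq_zero_iff_mem] at h0
      exact edgePoly_notMem_lss hE hq (hME ((hMf' A).1 hA).2)
        (hN.trans Set.sdiff_subset) (fun h => h.2 ((hMf' A).1 hA).2) h0)
  set J := Ideal.span ((fun A : Finset V => (∏ v ∈ A, X v + C (mk (edgePoly k q A)) :
    MvPolynomial V (MvPolynomial (V × Fin q) k ⧸ P))) '' (Mf : Set (Finset V))) with hJdef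
  set B := Ideal.span (F k q u '' W) ⊔ Ideal.span {X none} with hB
  have hzB : (X none : MvPolynomial (Option (V × Fin (q + 1))) k) ∈ B :=
    Ideal.mem_sup_right (Ideal.mem_span_singleton_self _)
  have hFB : ∀ A ∈ W, F k q u A ∈ B := fun A hA =>
    Ideal.mem_sup_left (Ideal.subset_span ⟨A, hA, rfl⟩)
  set χ : MvPolynomial (Option (V × Fin (q + 1))) k →+*
      MvPolynomial V (MvPolynomial (V × Fin q) k ⧸ P) :=
    eval₂Hom (C.comp (mk.comp C)) (fun o => o.elim 0 fun x =>
      Fin.cases (X x.1) (fun j => C (mk (X (x.1, j)))) x.2) with hχ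
  have hχC : ∀ a, χ (C a) = C (mk (C a)) := by
    intro a; rw [hχ, coe_eval₂Hom, eval₂_C]; rfl
  have hχn : χ (X none) = 0 := by rw [hχ, coe_eval₂Hom, eval₂_X]; rfl
  have hχ0 : ∀ v, χ (X (some (v, 0))) = X v := by
    intro v; rw [hχ, coe_eval₂Hom, eval₂_X]; rfl
  have hχs : ∀ v j, χ (X (some (v, Fin.succ j))) = C (mk (X (v, j))) := by
    intro v j; rw [hχ, coe_eval₂Hom, eval₂_X]; rfl
  have hχι : ∀ x, χ (iota k V q x) = C (mk x) := by
    have h : χ.comp (iota k V q) = C.comp mk := by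
      apply MvPolynomial.ringHom_ext
      · intro a
        rw [RingHom.comp_apply, iota_C, hχC]; rfl
      · rintro ⟨v, j⟩
        rw [RingHom.comp_apply, iota_X, hχs]; rfl
    intro x
    exact congrArg (fun f => f x) h
  have hχF : ∀ A, χ (F k q u A) = 0 ^ (-∑ i ∈ A, u i).toNat * ∏ v ∈ A, X v +
      C (mk (edgePoly k q A)) := by
    intro A
    rw [F_eq, map_add, map_mul, map_pow, hχn, map_prod, hχι]
    congr 2
    exact Finset.prod_congr rfl fun v _ => hχ0 v
  have hPB : P ≤ RingHom.ker ((Ideal.Quotient.mk B).comp (iota k V q)) := by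
    apply lss_le_ker
    rintro A ⟨hAW, hAM⟩
    rw [RingHom.comp_apply, Ideal.Quotient.eq_zero_iff_mem]
    have h1 := hFB A hAW
    rw [F_eq] at h1
    have h2 : X none ^ (-∑ i ∈ A, u i).toNat * ∏ i ∈ A, X (some (i, 0)) ∈ B := by
      refine B.mul_mem_right _ ?_
      refine Ideal.pow_mem_of_mem B hzB _ ?_
      have := hu1 A (hW hAW) hAM
      omega
    have h3 := B.sub_mem h1 h2
    rwa [add_sub_cancel_left] at h3
  set τ : MvPolynomial V (MvPolynomial (V × Fin q) k ⧸ P) →+*
      (MvPolynomial (Option (V × Fin (q + 1))) k ⧸ B) :=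
    eval₂Hom (Ideal.Quotient.lift P ((Ideal.Quotient.mk B).comp (iota k V q))
      (fun a ha => RingHom.mem_ker.1 (hPB ha)))
      (fun v => Ideal.Quotient.mk B (X (some (v, 0)))) with hτ
  have hτX : ∀ v, τ (X v) = Ideal.Quotient.mk B (X (some (v, 0))) := by
    intro v; rw [hτ, coe_eval₂Hom, eval₂_X]
  have hτC : ∀ a, τ (C (mk a)) = Ideal.Quotient.mk B (iota k V q a) := by
    intro a; rw [hτ, coe_eval₂Hom, eval₂_C]; exact Ideal.Quotient.lift_mk _ _ _
  have hτχ : τ.comp χ = Ideal.Quotient.mk B := by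
    apply MvPolynomial.ringHom_ext
    · intro a
      rw [RingHom.comp_apply, hχC, hτC, iota_C]
    · rintro (_ | ⟨v, j⟩)
      · rw [RingHom.comp_apply, hχn, map_zero]
        exact (Ideal.Quotient.eq_zero_iff_mem.2 hzB).symm
      · rw [RingHom.comp_apply]
        refine Fin.cases ?_ (fun j => ?_) j
        · rw [hχ0, hτX]
        · rw [hχs, hτC, iota_X]
  have hτJ : J ≤ RingHom.ker τ := by
    rw [hJdef, Ideal.span_le]
    rintro _ ⟨A, hA, rfl⟩
    have hA' := (hMf' A).1 (Finset.mem_coe.1 hA)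
    rw [SetLike.mem_coe, RingHom.mem_ker]
    simp only
    have h1 := hFB A hA'.1
    rw [F_eq, hu0 A hA'.2, neg_zero, Int.toNat_zero, pow_zero, one_mul] at h1
    rw [map_add, map_prod, hτC, Finset.prod_congr rfl fun v _ => hτX v, ← map_prod, ← map_add,
      Ideal.Quotient.eq_zero_iff_mem]
    exact h1
  have heq : B = J.comap χ := by
    apply le_antisymm
    · rw [hB, sup_le_iff]
      constructor
      · rw [Ideal.span_le]
        rintro _ ⟨A, hA, rfl⟩
        rw [SetLike.mem_coe, Ideal.mem_comap, hχF]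
        by_cases hAM : A ∈ M
        · rw [hu0 A hAM, neg_zero, Int.toNat_zero, pow_zero, one_mul]
          exact Ideal.subset_span ⟨A, Finset.mem_coe.2 ((hMf' A).2 ⟨hA, hAM⟩), rfl⟩
        · have h1 := hu1 A (hW hA) hAM
          rw [zero_pow (by omega), zero_mul, zero_add]
          have h2 : mk (edgePoly k q A) = 0 := by
            rw [hmk, Ideal.Quotient.eq_zero_iff_mem]
            exact Ideal.subset_span ⟨A, ⟨hA, hAM⟩, rfl⟩
          rw [h2, map_zero]
          exact Ideal.zero_mem _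
      · rw [Ideal.span_le, Set.singleton_subset_iff, SetLike.mem_coe, Ideal.mem_comap, hχn]
        exact Ideal.zero_mem _
    · intro x hx
      rw [Ideal.mem_comap] at hx
      have h1 := hτJ hx
      rw [RingHom.mem_ker] at h1
      have h2 : τ (χ x) = Ideal.Quotient.mk B x := congrArg (fun f => f x) hτχ
      rw [h2] at h1
      exact Ideal.Quotient.eq_zero_iff_mem.1 h1
  rw [heq]
  exact Ideal.IsPrime.comap χ

/-- the weights of the variables -/
def om {V : Type u} {q : ℕ} (D : ℕ) (u : V → ℤ) : Option (V × Fin (q + 1)) → ℕ :=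
  fun o => o.elim 1 (fun x => if x.2 = 0 then ((D : ℤ) + u x.1).toNat else D)

omit [DecidableEq V] in
lemma sum_toNat {D : ℕ} (hD : ∀ v, |u v| < D) (A : Finset V) (hA : ∑ i ∈ A, u i ≤ 0) :
    (-∑ i ∈ A, u i).toNat + ∑ i ∈ A, ((D : ℤ) + u i).toNat = D * A.card := by
  have h1 : ((∑ i ∈ A, ((D : ℤ) + u i).toNat : ℕ) : ℤ) = ∑ i ∈ A, ((D : ℤ) + u i) := by
    rw [Nat.cast_sum]
    refine Finset.sum_congr rfl fun i _ => ?_
    have := (abs_lt.1 (hD i)).1
    rw [Int.toNat_of_nonneg (by omega)]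
  rw [Finset.sum_add_distrib, Finset.sum_const, nsmul_eq_mul] at h1
  have h2 : (((-∑ i ∈ A, u i).toNat : ℕ) : ℤ) = -∑ i ∈ A, u i := Int.toNat_of_nonneg (by omega)
  have h3 : (((-∑ i ∈ A, u i).toNat + ∑ i ∈ A, ((D : ℤ) + u i).toNat : ℕ) : ℤ) =
      ((D * A.card : ℕ) : ℤ) := by
    push_cast at h1 ⊢
    rw [h1, h2]
    ring
  exact_mod_cast h3

omit [DecidableEq V] in
lemma sum_toNat' {D : ℕ} (hD : ∀ v, |u v| < D) (A : Finset V) (hA : ∑ i ∈ A, u i ≤ 0) :
    ∑ i ∈ A, ((D : ℤ) - u i).toNat = D * A.card + (-∑ i ∈ A, u i).toNat := by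
  have h1 : ((∑ i ∈ A, ((D : ℤ) - u i).toNat : ℕ) : ℤ) = ∑ i ∈ A, ((D : ℤ) - u i) := by
    rw [Nat.cast_sum]
    refine Finset.sum_congr rfl fun i _ => ?_
    have := (abs_lt.1 (hD i)).2
    rw [Int.toNat_of_nonneg (by omega)]
  rw [Finset.sum_sub_distrib, Finset.sum_const, nsmul_eq_mul] at h1
  have h2 : (((-∑ i ∈ A, u i).toNat : ℕ) : ℤ) = -∑ i ∈ A, u i := Int.toNat_of_nonneg (by omega)
  have h3 : ((∑ i ∈ A, ((D : ℤ) - u i).toNat : ℕ) : ℤ) =
      ((D * A.card + (-∑ i ∈ A, u i).toNat : ℕ) : ℤ) := by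
    rw [h1, Nat.cast_add, h2]
    push_cast
    ring
  exact_mod_cast h3

lemma F_psi {D : ℕ} (hD : ∀ v, |u v| < D) {A : Finset V} (hA : ∑ i ∈ A, u i ≤ 0) :
    Psi k (om D u) (F k q u A) = Polynomial.X ^ (D * A.card) * Polynomial.C (F k q u A) := by
  have h0 : ∀ i : V, om (q := q) D u (some (i, 0)) = ((D : ℤ) + u i).toNat := fun i => by simp [om]
  have hs : ∀ (i : V) (j : Fin q), om D u (some (i, j.succ)) = D := fun i j => by
    simp [om, Fin.succ_ne_zero]
  have hn : om (q := q) D u none = 1 := rfl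
  unfold F
  rw [map_add, map_mul, map_pow, Psi_X, hn, pow_one, map_prod, map_sum, map_add, map_mul, mul_add]
  congr 1
  · have h1 : ∏ i ∈ A, Psi k (om D u) (X (some (i, (0 : Fin (q + 1))))) =
        Polynomial.X ^ (∑ i ∈ A, ((D : ℤ) + u i).toNat) *
          Polynomial.C (∏ i ∈ A, X (some (i, (0 : Fin (q + 1))))) := by
      rw [Finset.prod_congr rfl fun i _ => by rw [Psi_X, h0], Finset.prod_mul_distrib,
        Finset.prod_pow_eq_pow_sum, map_prod]
    rw [h1, mul_pow, ← sum_toNat hD A hA, pow_add, map_pow]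
    ring
  · rw [map_sum, Finset.mul_sum]
    refine Finset.sum_congr rfl fun j _ => ?_
    rw [map_prod, Finset.prod_congr rfl fun i _ => by rw [Psi_X, hs], Finset.prod_mul_distrib,
      Finset.prod_const, map_prod, ← pow_mul]

variable [Finite V]

/-- Adding a column and a positive matching. -/
theorem prime_step {E M : Set (Finset V)} (hq : 1 ≤ q) (hE : IsClutter E)
    (hM : IsPositiveMatching E M) (hP : ∀ E' ⊆ E \ M, (lss k q E').IsPrime) :
    (lss k (q + 1) E).IsPrime := by
  classical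
  obtain ⟨u, hu0, hu1⟩ := int_weights hE.1 hM
  have hule : ∀ A ∈ E, ∑ i ∈ A, u i ≤ 0 := by
    intro A hA
    by_cases h : A ∈ M
    · exact (hu0 A h).le
    · exact (hu1 A hA h).le
  have : Fintype V := Fintype.ofFinite V
  obtain ⟨D, hD⟩ : ∃ D : ℕ, ∀ v, |u v| < D := by
    refine ⟨(∑ v, |u v|).toNat + 1, fun v => ?_⟩
    have h1 : |u v| ≤ ∑ v, |u v| :=
      Finset.single_le_sum (f := fun v => |u v|) (fun i _ => abs_nonneg _) (Finset.mem_univ v)
    have h2 := Int.self_le_toNat (∑ v, |u v|)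
    push_cast
    omega
  have hDpos : 0 < D ∨ IsEmpty V := by
    rcases isEmpty_or_nonempty V with h | ⟨⟨v⟩⟩
    · exact Or.inr h
    · left
      have := (abs_nonneg (u v)).trans_lt (hD v)
      exact_mod_cast this
  have hom : ∀ o, 0 < om (q := q) D u o := by
    rintro (_ | ⟨v, j⟩)
    · exact Nat.one_pos
    · have hD' : 0 < D := by
        rcases hDpos with h | h
        · exact h
        · exact h.elim v
      unfold om
      simp only [Option.elim_some]
      have := (abs_lt.1 (hD v)).1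
      split_ifs
      · omega
      · exact hD'
  have hFprime : (Ideal.span (F k q u '' E)).IsPrime := by
    have h := lift_family (F k q u) (X none) E ?_
      (fun W hW => special_prime hq hE hM.1 hM.2.1 hu0 hu1 hP hW) ?_ ?_
      (Set.toFinite E).toFinset (by rw [Set.Finite.coe_toFinset])
    · rwa [Set.Finite.coe_toFinset] at h
    · intro W hW r x hr hrx
      refine mem_of_mul_mem_weighted hom ?_ ?_ hrx
      · rintro _ ⟨A, hA, rfl⟩
        exact ⟨_, F_psi hD (hule A (hW hA))⟩
      · obtain ⟨y, hy⟩ := Ideal.mem_span_singleton'.1 hr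
        have : r = 1 + y * X none := by rw [hy]; ring
        rw [this, map_add, map_mul, constantCoeff_X]
        simp
    · intro W hW A hA hAW hmem
      set p : Option (V × Fin (q + 1)) → k := fun o => o.elim 0 fun x =>
        if x.2 = Fin.succ ⟨0, hq⟩ ∧ x.1 ∈ A then 1 else 0 with hp
      have hp0 : ∀ v, p (some (v, 0)) = 0 := by
        intro v
        rw [hp]
        simp only [Option.elim_some]
        rw [if_neg]
        rintro ⟨h, -⟩
        exact (Fin.succ_ne_zero _ h.symm)
      have hev : ∀ B : Finset V, B.Nonempty → eval p (F k q u B) = if B ⊆ A then 1 else 0 := by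
        intro B hB
        unfold F
        rw [map_add, map_mul, map_prod, map_sum]
        have h1 : ∏ i ∈ B, eval p (X (some (i, (0 : Fin (q + 1))))) = 0 := by
          obtain ⟨b, hb⟩ := hB
          exact Finset.prod_eq_zero hb (by rw [eval_X, hp0])
        rw [h1, mul_zero, zero_add, Finset.sum_eq_single (⟨0, hq⟩ : Fin q)]
        · rw [map_prod]
          split_ifs with hBA
          · refine Finset.prod_eq_one fun i hi => ?_
            rw [eval_X, hp]
            simp [hBA hi]
          · obtain ⟨i, hi, hi'⟩ := Finset.not_subset.1 hBA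
            refine Finset.prod_eq_zero hi ?_
            rw [eval_X, hp]
            simp [hi']
        · intro j _ hj
          obtain ⟨b, hb⟩ := hB
          rw [map_prod]
          refine Finset.prod_eq_zero hb ?_
          rw [eval_X, hp]
          simp only [Option.elim_some]
          rw [if_neg]
          rintro ⟨h, -⟩
          exact hj (Fin.succ_injective _ h)
        · intro h
          exact absurd (Finset.mem_univ _) h
      have hker : Ideal.span (F k q u '' W) ⊔ Ideal.span {X none} ≤ RingHom.ker (eval p) := by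
        rw [sup_le_iff]
        constructor
        · rw [Ideal.span_le]
          rintro _ ⟨B, hB, rfl⟩
          rw [SetLike.mem_coe, RingHom.mem_ker, hev B (hE.1 B (hW hB)), if_neg]
          intro hBA
          exact hAW ((hE.2 B (hW hB) A hA hBA) ▸ hB)
        · rw [Ideal.span_le, Set.singleton_subset_iff, SetLike.mem_coe, RingHom.mem_ker, eval_X]
          rfl
      have h1 := hker hmem
      rw [RingHom.mem_ker, hev A (hE.1 A hA), if_pos (Finset.Subset.refl A)] at h1
      exact one_ne_zero h1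
    · intro W hW hmem
      set p : Option (V × Fin (q + 1)) → k := fun o => o.elim 1 fun _ => 0 with hp
      have hker : Ideal.span (F k q u '' W) ≤ RingHom.ker (eval p) := by
        rw [Ideal.span_le]
        rintro _ ⟨B, hB, rfl⟩
        obtain ⟨b, hb⟩ := hE.1 B (hW hB)
        rw [SetLike.mem_coe, RingHom.mem_ker]
        unfold F
        rw [map_add, map_mul, map_prod, map_sum, Finset.prod_eq_zero hb (by rw [eval_X]; rfl),
          mul_zero, zero_add]
        refine Finset.sum_eq_zero fun j _ => ?_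
        rw [map_prod]
        exact Finset.prod_eq_zero hb (by rw [eval_X]; rfl)
      have h1 := hker hmem
      rw [RingHom.mem_ker, eval_X] at h1
      exact one_ne_zero h1
  set H : MvPolynomial (V × Fin (q + 1)) k →+* MvPolynomial (Option (V × Fin (q + 1))) k :=
    eval₂Hom C (fun x => Fin.cases (X none ^ ((D : ℤ) - u x.1).toNat * X (some (x.1, 0)))
      (fun j => X none ^ D * X (some (x.1, Fin.succ j))) x.2) with hH
  have hH0 : ∀ v, H (X (v, 0)) = X none ^ ((D : ℤ) - u v).toNat * X (some (v, 0)) := by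
    intro v; rw [hH, coe_eval₂Hom, eval₂_X]; rfl
  have hHs : ∀ v (j : Fin q), H (X (v, j.succ)) = X none ^ D * X (some (v, j.succ)) := by
    intro v j; rw [hH, coe_eval₂Hom, eval₂_X]; rfl
  have hHC : ∀ a, H (C a) = C a := by
    intro a; rw [hH, coe_eval₂Hom, eval₂_C]
  have hHf : ∀ A ∈ E, H (edgePoly k (q + 1) A) = X none ^ (D * A.card) * F k q u A := by
    intro A hA
    unfold edgePoly F
    rw [map_sum, Fin.sum_univ_succ, mul_add]
    congr 1
    · rw [map_prod, Finset.prod_congr rfl fun i _ => hH0 i, Finset.prod_mul_distrib,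
        Finset.prod_pow_eq_pow_sum, sum_toNat' hD A (hule A hA), pow_add, mul_assoc]
    · rw [Finset.mul_sum]
      refine Finset.sum_congr rfl fun j _ => ?_
      rw [map_prod, Finset.prod_congr rfl fun i _ => hHs i j, Finset.prod_mul_distrib,
        Finset.prod_const, ← pow_mul]
  set Θ : MvPolynomial (Option (V × Fin (q + 1))) k →+* MvPolynomial (V × Fin (q + 1)) k :=
    eval₂Hom C (fun o => o.elim 1 X) with hΘ
  have hΘn : Θ (X none) = 1 := by rw [hΘ, coe_eval₂Hom, eval₂_X]; rfl
  have hΘs : ∀ x, Θ (X (some x)) = X x := by intro x; rw [hΘ, coe_eval₂Hom, eval₂_X]; rfl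
  have hΘH : Θ.comp H = RingHom.id _ := by
    apply MvPolynomial.ringHom_ext
    · intro a
      rw [RingHom.comp_apply, hHC, hΘ, coe_eval₂Hom, eval₂_C]; rfl
    · rintro ⟨v, j⟩
      rw [RingHom.comp_apply]
      refine Fin.cases ?_ (fun j => ?_) j
      · rw [hH0, map_mul, map_pow, hΘn, hΘs, one_pow, one_mul]; rfl
      · rw [hHs, map_mul, map_pow, hΘn, hΘs, one_pow, one_mul]; rfl
  have hΘF : ∀ A, Θ (F k q u A) = edgePoly k (q + 1) A := by
    intro A
    unfold edgePoly F
    rw [map_add, map_mul, map_pow, hΘn, one_pow, one_mul, map_prod, map_sum, Fin.sum_univ_succ]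
    congr 1
    · exact Finset.prod_congr rfl fun i _ => hΘs _
    · refine Finset.sum_congr rfl fun j _ => ?_
      rw [map_prod]
      exact Finset.prod_congr rfl fun i _ => hΘs _
  have heq : lss k (q + 1) E = (Ideal.span (F k q u '' E)).comap H := by
    apply le_antisymm
    · unfold lss
      rw [Ideal.span_le]
      rintro _ ⟨A, hA, rfl⟩
      rw [SetLike.mem_coe, Ideal.mem_comap, hHf A hA]
      exact Ideal.mul_mem_left _ _ (Ideal.subset_span ⟨A, hA, rfl⟩)
    · intro x hx
      rw [Ideal.mem_comap] at hx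
      have h1 : Ideal.span (F k q u '' E) ≤ (lss k (q + 1) E).comap Θ := by
        rw [Ideal.span_le]
        rintro _ ⟨A, hA, rfl⟩
        rw [SetLike.mem_coe, Ideal.mem_comap, hΘF]
        exact Ideal.subset_span ⟨A, hA, rfl⟩
      have h2 := h1 hx
      rw [Ideal.mem_comap] at h2
      have h3 : Θ (H x) = x := congrArg (fun f => f x) hΘH
      rwa [h3] at h2
  rw [heq]
  exact Ideal.IsPrime.comap H

end step

section main

omit [DecidableEq V] in
lemma IsClutter.subset {E E' : Set (Finset V)} (hE : IsClutter E) (h : E' ⊆ E) : IsClutter E' :=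
  ⟨fun A hA => hE.1 A (h hA), fun A hA B hB => hE.2 A (h hA) B (h hB)⟩

omit [DecidableEq V] in
lemma HasPMD.subset : ∀ {p : ℕ} {E E' : Set (Finset V)}, E' ⊆ E → HasPMD p E → HasPMD p E' := by
  intro p
  induction p with
  | zero =>
    intro E E' h hE
    have hE' : E = ∅ := hE
    exact Set.subset_eq_empty h hE'
  | succ p ih =>
    rintro E E' h ⟨M, ⟨hME, hdisj, w, hw1, hw2⟩, hp⟩
    refine ⟨M ∩ E', ⟨Set.inter_subset_right, fun A hA B hB => hdisj A hA.1 B hB.1, w,
      fun A hA => hw1 A hA.1, fun A hA hAM => hw2 A (h hA) fun hAM' => hAM ⟨hAM', hA⟩⟩, ih ?_ hp⟩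
    rintro A ⟨hA, hAM⟩
    exact ⟨h hA, fun hAM' => hAM ⟨hAM', hA⟩⟩

lemma hasPMD_card : ∀ W : Finset (Finset V), IsClutter (W : Set (Finset V)) →
    HasPMD W.card (W : Set (Finset V)) := by
  intro W
  induction W using Finset.induction_on with
  | empty => intro _; exact Finset.coe_empty
  | insert A W hAW ih =>
    intro hE
    rw [Finset.card_insert_of_notMem hAW]
    have hA : A ∈ ((insert A W : Finset (Finset V)) : Set (Finset V)) := by simp
    refine ⟨{A}, ⟨by simpa using hA, ?_, fun v => if v ∈ A then 1 else -(A.card + 1), ?_, ?_⟩, ?_⟩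
    · intro B hB B' hB' hne
      exact absurd (hB.trans hB'.symm) hne
    · intro B hB
      rw [Set.mem_singleton_iff] at hB
      subst hB
      rw [Finset.sum_congr rfl fun i hi => if_pos hi, Finset.sum_const, nsmul_eq_mul, mul_one]
      exact_mod_cast (hE.1 B hA).card_pos
    · intro B hB hBA
      rw [Set.mem_singleton_iff] at hBA
      have h1 : ¬ B ⊆ A := fun h => hBA (hE.2 B hB A hA h)
      obtain ⟨b, hb, hb'⟩ := Finset.not_subset.1 h1
      rw [Finset.sum_ite, Finset.sum_const, Finset.sum_const, nsmul_eq_mul, nsmul_eq_mul, mul_one]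
      have h2 : ({x ∈ B | x ∈ A}.card : ℝ) ≤ A.card := by
        exact_mod_cast Finset.card_le_card (fun x hx => (Finset.mem_filter.1 hx).2)
      have h3 : (1 : ℝ) ≤ ({x ∈ B | x ∉ A}.card : ℝ) := by
        exact_mod_cast Finset.card_pos.2 ⟨b, Finset.mem_filter.2 ⟨hb, hb'⟩⟩
      have h4 : (0 : ℝ) ≤ A.card := Nat.cast_nonneg _
      nlinarith
    · have h1 : ((insert A W : Finset (Finset V)) : Set (Finset V)) \ {A} = W := by
        rw [Finset.coe_insert, Set.insert_sdiff_of_mem _ (Set.mem_singleton A)]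
        exact Set.sdiff_singleton_eq_self (by simpa using hAW)
      rw [h1]
      exact ih (hE.subset (by simp))

theorem prime_of_hasPMD [Finite V] : ∀ (p : ℕ) (E : Set (Finset V)), IsClutter E → HasPMD p E →
    ∀ d, p + 1 ≤ d → (lss k d E).IsPrime := by
  intro p
  induction p with
  | zero =>
    intro E _ hp d _
    have hE : E = ∅ := hp
    unfold lss
    rw [hE, Set.image_empty, Ideal.span_empty]
    exact Ideal.isPrime_bot
  | succ p ih =>
    rintro E hE ⟨M, hM, hp⟩ d hd
    obtain ⟨q, rfl⟩ : ∃ q, d = q + 1 := ⟨d - 1, by omega⟩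
    refine prime_step (by omega) hE hM fun E' hE' => ?_
    exact ih E' (hE.subset (hE'.trans Set.sdiff_subset)) (hp.subset hE') q (by omega)

/-- Q1: for a clutter `E` of nonempty subsets of a finite set `V` and a field `k`, `pmd(H)` is
attained by a positive matching decomposition, and `L_H(d)` is prime for all `d ≥ pmd(H) + 1`. -/
theorem result (k : Type v) [Field k] (V : Type u) [Finite V] [DecidableEq V]
    (E : Set (Finset V)) (hE : IsClutter E) :
    HasPMD (pmd E) E ∧ ∀ d : ℕ, pmd E + 1 ≤ d → (lss k d E).IsPrime := by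
  have hne : {p | HasPMD p E}.Nonempty := by
    refine ⟨(Set.toFinite E).toFinset.card, ?_⟩
    have h := hasPMD_card (Set.toFinite E).toFinset (by rwa [Set.Finite.coe_toFinset])
    rw [Set.Finite.coe_toFinset] at h
    exact h
  have h : HasPMD (pmd E) E := Nat.sInf_mem hne
  exact ⟨h, prime_of_hasPMD (pmd E) E hE h⟩

end main

end Pool.Agent.Results.MP_c79496_ag.PrimeAbovePmd
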